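import Pool.Agent.Lib_helper20.AC0Defs
import Pool.Agent.Lib_helper20.Numeric
import Pool.Agent.Lib_helper20.Reduce

/-!
# Witness length for unsatisfiability with AC0[p] verifiers

Inputs are formulas `F 0 ∨ ... ∨ F (t-1)` over `v` common variables, each `F j` a three-literal
CNF. Satisfiability has witnesses of `v` bits checked in depth two. Unsatisfiability is shown to
need witnesses of `t * v / polylog` bits for every nonuniform randomised (Merlin-Arthur)
verifier made of constant-depth circuits with AND, OR and MOD_p gates.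
-/

namespace Pool.Agent.Lib_helper20.Retired.AC0pWitnessLength

open Pool.Agent.Lib20

/-! ### The short witnesses for satisfiability -/

/-- Gate checking that no clause of `F j` falsified by `α` is present. -/
noncomputable def checkGate {t v : ℕ} (α : Fin v → Bool) (j : Fin t) : Gate (Fin t × Clause v) :=
  ⟨Kind.and, ((Finset.univ.filter fun c : Clause v => ∀ i, α (c i).1 ≠ (c i).2).toList).map
    fun c => (true, Src.input (j, c))⟩

lemma checkGate_val {t v : ℕ} (p : ℕ) (α : Fin v → Bool) (j : Fin t) (φ : DisjOfCNF t v)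
    (vs : List Bool) : (checkGate α j).val p φ vs = true ↔
      ∀ c : Clause v, φ (j, c) = true → ∃ i, α (c i).1 = (c i).2 := by
  simp only [checkGate, Gate.val, List.all_map, List.all_eq_true, Finset.mem_toList,
    Finset.mem_filter, Finset.mem_univ, true_and, Function.comp, wireVal, Src.val, Bool.true_xor,
    Bool.not_eq_true']
  constructor
  · intro h c hc
    by_contra hno
    push Not at hno
    have := h c hno
    rw [hc] at this
    exact Bool.noConfusion this
  · intro h c hc
    cases hφ : φ (j, c)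
    · rfl
    · obtain ⟨i, hi⟩ := h c hφ
      exact absurd hi (hc i)

lemma vals_check {t v : ℕ} (p : ℕ) (α : Fin v → Bool) (φ : DisjOfCNF t v) (l : List (Fin t)) :
    Circuit.vals p φ (l.map (checkGate α)) = l.map (fun j => (checkGate α j).val p φ []) := by
  induction l with
  | nil => rfl
  | cons j l ih =>
    simp only [List.map_cons, Circuit.vals]
    rw [ih]
    congr 1
    rw [Bool.eq_iff_iff, checkGate_val, checkGate_val]

lemma depths_check {t v : ℕ} (α : Fin v → Bool) (l : List (Fin t)) :
    ∀ e ∈ Circuit.depths (l.map (checkGate α) : List (Gate (Fin t × Clause v))), e = 1 := by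
  induction l with
  | nil => simp [Circuit.depths]
  | cons j l ih =>
    simp only [List.map_cons, Circuit.depths, List.mem_cons]
    rintro e (he | he)
    · rw [he]
      simp only [checkGate, List.map_map, Function.comp_def, Src.depth, List.map_const']
      have : ∀ n : ℕ, (List.replicate n 0).foldr max 0 = 0 := by
        intro n
        induction n with
        | zero => rfl
        | succ n ih => simp [List.replicate_succ, ih]
      rw [this]
    · exact ih e he

lemma sat_verifier (p t v : ℕ) (α : Fin v → Bool) :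
    ∃ C : Circuit (Fin t × Clause v), Circuit.size C ≤ t + 1 ∧ Circuit.depth C ≤ 2 ∧
      ∀ φ, Circuit.eval p C φ = true ↔ Satisfies φ α := by
  classical
  let top : Gate (Fin t × Clause v) := ⟨Kind.or, (List.range t).map fun k => (false, Src.gate k)⟩
  refine ⟨top :: (List.finRange t).map (checkGate α), ?_, ?_, ?_⟩
  · simp [Circuit.size]
  · have hds := depths_check (v := v) α (List.finRange t)
    set ds := Circuit.depths ((List.finRange t).map (checkGate α) : List (Gate (Fin t × Clause v))) with hdsdef
    have hmax : ∀ l : List ℕ, (∀ e ∈ l, e ≤ 1) → l.foldr max 0 ≤ 1 := by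
      intro l hl
      induction l with
      | nil => simp
      | cons a l ih =>
        simp only [List.foldr_cons]
        exact max_le (hl a List.mem_cons_self) (ih fun e he => hl e (List.mem_cons_of_mem _ he))
    simp only [Circuit.depth, Circuit.depths, List.foldr_cons, ← hdsdef]
    apply max_le
    · apply Nat.succ_le_succ
      apply hmax
      intro e he
      simp only [top, List.map_map, List.mem_map, Function.comp] at he
      obtain ⟨k, _, rfl⟩ := he
      simp only [Src.depth]
      rw [List.getD_eq_getElem?_getD]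
      cases hk : ds[k]? with
      | none => simp
      | some e =>
        simp only [Option.getD_some]
        exact (hds e (List.mem_of_getElem? hk)).le
    · exact (hmax ds fun e he => (hds e he).le).trans (by norm_num)
  · intro φ
    simp only [Circuit.eval, Circuit.vals, List.headD_cons]
    rw [vals_check]
    simp only [top, Gate.val, List.any_map, List.any_eq_true, List.mem_range, Function.comp,
      wireVal, Src.val, Bool.false_xor]
    constructor
    · rintro ⟨k, hk, h⟩
      rw [List.getD_eq_getElem?_getD, List.getElem?_map, List.getElem?_eq_getElem (by simpa using hk)] at h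
      simp only [Option.map_some, Option.getD_some, List.getElem_finRange] at h
      exact ⟨_, (checkGate_val p α _ φ []).mp h⟩
    · rintro ⟨j, hj⟩
      refine ⟨j.val, j.isLt, ?_⟩
      rw [List.getD_eq_getElem?_getD, List.getElem?_map, List.getElem?_eq_getElem (by simp)]
      simp only [Option.map_some, Option.getD_some, List.getElem_finRange]
      exact (checkGate_val p α _ φ []).mpr hj

/-! ### The lower bound -/

/-- Arithmetic of the choice of parameters. -/
lemma parameters (p d v : ℕ) (hp : 2 ≤ p) (lam L : ℕ) (hlam : 1 ≤ lam)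
    (hL1 : 1 ≤ L) (hL : L ≤ (6 * p * lam) ^ d)
    (hv : (6144 * p * lam) ^ (2 * d + 2) ≤ v) :
    1 ≤ v / (98304 * L ^ 2 * lam) ∧
    2 * ((64 * L) * (64 * L) * (v / (98304 * L ^ 2 * lam))) + 1 ≤ 2 ^ (v / (98304 * L ^ 2 * lam)) ∧
    98304 * L ^ 2 * lam ≤ (6144 * p * lam) ^ (2 * d + 2) := by
  set A := 6 * p * lam with hA
  set M := 98304 * L ^ 2 * lam with hM
  have hA1 : 1 ≤ A := by
    have : 0 < 6 * p * lam := by positivity
    exact this
  have hMpos : 0 < M := by positivity
  have hL2 : L ^ 2 ≤ A ^ (2 * d) := by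
    calc L ^ 2 ≤ (A ^ d) ^ 2 := Nat.pow_le_pow_left hL 2
      _ = _ := by rw [← pow_mul]; congr 1; ring
  have hK : 6144 * p * lam = 1024 * A := by rw [hA]; ring
  set X := 384 * (p * p) * lam * 2 ^ (20 * d) with hX
  have hKX : M * X ≤ (6144 * p * lam) ^ (2 * d + 2) := by
    rw [hK, mul_pow]
    have e1 : (1024 : ℕ) ^ (2 * d + 2) = 2 ^ (20 * d) * 2 ^ 20 := by
      rw [show (1024 : ℕ) = 2 ^ 10 by norm_num, ← pow_mul, ← pow_add]; congr 1; ring
    have e2 : A ^ (2 * d + 2) = A ^ (2 * d) * ((6 * p * lam) * (6 * p * lam)) := by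
      rw [pow_add, pow_two]
    rw [e1, e2]
    calc M * X = L ^ 2 * (2 ^ (20 * d) * (98304 * 384 * (p * p) * (lam * lam))) := by
          rw [hM, hX]; ring
      _ ≤ A ^ (2 * d) * (2 ^ (20 * d) * (98304 * 384 * (p * p) * (lam * lam))) :=
          Nat.mul_le_mul_right _ hL2
      _ = _ := by ring
  have hX1 : 20 * d + 1 ≤ 2 ^ (20 * d) := Nat.lt_two_pow_self
  have hXbig : 384 * (p * p) * lam * (20 * d + 1) ≤ X := Nat.mul_le_mul_left _ hX1
  have hpl : 2 ≤ p * lam := by nlinarith
  have hXbig2 : 30 + 4 * (d * A) ≤ X := by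
    refine le_trans ?_ hXbig
    rw [hA]
    have h1 : 384 * (p * p) * lam * (20 * d + 1) = 384 * p * (p * lam) * (20 * d + 1) := by ring
    rw [h1]
    have h2 : 384 * 2 * (p * lam) * (20 * d + 1) ≤ 384 * p * (p * lam) * (20 * d + 1) := by
      apply Nat.mul_le_mul_right
      apply Nat.mul_le_mul_right
      omega
    refine le_trans ?_ h2
    have h3 : d * (6 * p * lam) = 6 * (d * (p * lam)) := by ring
    have h4 : 384 * 2 * (p * lam) * (20 * d + 1) = 15360 * (d * (p * lam)) + 768 * (p * lam) := by ring
    rw [h3, h4]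
    omega
  set u := v / M with hu
  have hXu : X ≤ u := by
    rw [hu, Nat.le_div_iff_mul_le hMpos, mul_comm]
    exact hKX.trans hv
  have hXpos : 1 ≤ X := by omega
  refine ⟨by omega, ?_, ?_⟩
  · have h1 : u ≤ 2 ^ (u / 2 + 1) := by
      have h2 : u / 2 + 1 ≤ 2 ^ (u / 2) := Nat.lt_two_pow_self
      rw [pow_succ]
      omega
    have h3 : A ^ (2 * d) ≤ 2 ^ (2 * (d * A)) := by
      calc A ^ (2 * d) ≤ (2 ^ A) ^ (2 * d) := Nat.pow_le_pow_left (Nat.lt_two_pow_self).le _
        _ = _ := by rw [← pow_mul]; congr 1; ring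
    have hu1 : 1 ≤ u := by omega
    calc 2 * ((64 * L) * (64 * L) * u) + 1 = 8192 * (L ^ 2 * u) + 1 := by ring
      _ ≤ 8192 * (A ^ (2 * d) * u) + 1 := by
          apply Nat.add_le_add_right
          apply Nat.mul_le_mul_left
          exact Nat.mul_le_mul_right _ hL2
      _ ≤ 16384 * (A ^ (2 * d) * u) := by
          have : 1 ≤ A ^ (2 * d) * u := Nat.mul_pos (Nat.pow_pos hA1) hu1
          omega
      _ ≤ 2 ^ 14 * (2 ^ (2 * (d * A)) * 2 ^ (u / 2 + 1)) := by
          apply Nat.mul_le_mul (by norm_num)
          exact Nat.mul_le_mul h3 h1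
      _ = 2 ^ (14 + (2 * (d * A) + (u / 2 + 1))) := by rw [← pow_add, ← pow_add]
      _ ≤ 2 ^ u := by
          apply Nat.pow_le_pow_right (by norm_num)
          omega
  · calc M = M * 1 := (mul_one _).symm
      _ ≤ M * X := Nat.mul_le_mul_left _ hXpos
      _ ≤ _ := hKX

lemma lower_bound (p : ℕ) [hp : Fact p.Prime] (d t v s m : ℕ)
    (Ω : Type) [Fintype Ω] [Nonempty Ω] (V : (Fin m → Bool) → Ω → Circuit (Fin t × Clause v))
    (hsize : ∀ w ω, Circuit.size (V w ω) ≤ s) (hdepth : ∀ w ω, Circuit.depth (V w ω) ≤ d)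
    (hcomp : ∀ φ, Unsat φ → ∃ w, 2 * Fintype.card Ω ≤
      3 * (Finset.univ.filter fun ω => Circuit.eval p (V w ω) φ = true).card)
    (hsound : ∀ φ, ¬ Unsat φ → ∀ w,
      3 * (Finset.univ.filter fun ω => Circuit.eval p (V w ω) φ = true).card ≤ Fintype.card Ω)
    (hv : (6144 * p * Nat.log 2 (s + v + 2)) ^ (2 * d + 2) ≤ v) :
    t * v ≤ m * (6144 * p * Nat.log 2 (s + v + 2)) ^ (2 * d + 2) := by
  classical
  rcases Nat.eq_zero_or_pos t with ht | ht
  · subst ht; simp
  set lam := Nat.log 2 (s + v + 2) with hlamdef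
  have hp2 : 2 ≤ p := hp.out.two_le
  have hlam : 1 ≤ lam := by
    rw [hlamdef]
    exact Nat.log_pos (by norm_num) (by omega)
  have hpow : s + v + 2 < 2 ^ (lam + 1) := Nat.lt_pow_succ_log_self (by norm_num) _
  set k0 := lam + 5 with hk0
  set L := ((p - 1) * k0) ^ d with hLdef
  have hbase : 1 ≤ (p - 1) * k0 := Nat.mul_pos (by omega) (by omega)
  have hL1 : 1 ≤ L := Nat.pow_pos hbase
  have hLle : L ≤ (6 * p * lam) ^ d := by
    apply Nat.pow_le_pow_left
    calc (p - 1) * k0 ≤ p * (6 * lam) := Nat.mul_le_mul (by omega) (by omega)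
      _ = _ := by ring
  obtain ⟨hu1, hbig, hM⟩ := parameters p d v hp2 lam L hlam hL1 hLle hv
  set M := 98304 * L ^ 2 * lam with hMdef
  set u := v / M with hu
  have hMpos : 0 < M := by positivity
  -- the block threshold function
  set h := (64 * L) * (64 * L) * u with hh
  set τ := (64 * L) * u with hτ
  have hτ1 : 1 ≤ τ := Nat.mul_pos (by omega) hu1
  have hhτ : τ ≤ h := by
    rw [hh, hτ]
    apply Nat.mul_le_mul_right
    exact Nat.le_mul_of_pos_left _ (by omega)
  have hMu : M * u ≤ v := Nat.mul_div_le v M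
  have h2h1 : 1 ≤ 2 * h := by omega
  have hcount : 2 * ((2 * h + 1) * ((lam + 1) + 1)) ≤ v := by
    calc 2 * ((2 * h + 1) * ((lam + 1) + 1)) ≤ 2 * ((2 * (2 * h)) * (3 * lam)) := by
          apply Nat.mul_le_mul_left
          apply Nat.mul_le_mul <;> omega
      _ = M * u := by rw [hh, hMdef]; ring
      _ ≤ v := hMu
  have hk1 : h + τ ≤ 2 ^ (lam + 1) := by
    have : 2 * h + 1 ≤ v := by nlinarith
    omega
  obtain ⟨π, hπ⟩ := reduction (2 * h) (h + τ) (lam + 1) v (by omega) hk1 hcount
  -- the verifier for block thresholds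
  let π' : Fin t × Clause v → Bool ⊕ (Fin t × Fin (2 * h)) := fun jc =>
    Sum.map id (fun i => (jc.1, i)) (π jc.2)
  let V' : (Fin m → Bool) → Ω → Circuit (Fin t × Fin (2 * h)) := fun w ω =>
    List.map (Gate.subst π') (V w ω)
  let form : (Fin t × Fin (2 * h) → Bool) → DisjOfCNF t v := fun x i => Sum.elim id x (π' i)
  have hform : ∀ x, Unsat (form x) ↔ Good (h + τ) x := by
    intro x
    have h1 : ∀ j c, form x (j, c) = Sum.elim id (fun i => x (j, i)) (π c) := by
      intro j c
      simp only [form, π']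
      cases π c <;> rfl
    constructor
    · intro hun j
      by_contra hlt
      rw [not_le] at hlt
      obtain ⟨α, hα⟩ := (hπ (fun i => x (j, i))).mpr hlt
      exact hun ⟨α, j, fun c hc => hα c (by rw [← h1]; exact hc)⟩
    · rintro hgood ⟨α, j, hα⟩
      have := (hπ (fun i => x (j, i))).mp ⟨α, fun c hc => hα c (by rw [h1]; exact hc)⟩
      have h2 := hgood j
      rw [wt] at h2
      omega
  have heval : ∀ w ω x, Circuit.eval p (V' w ω) x = Circuit.eval p (V w ω) (form x) := by
    intro w ω x
    exact eval_subst p π' x (V w ω)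
  have hcard : ∀ w x, Nat.card {ω : Ω // Circuit.eval p (V' w ω) x = true} =
      (Finset.univ.filter fun ω => Circuit.eval p (V w ω) (form x) = true).card := by
    intro w x
    rw [Nat.card_eq_fintype_card, Fintype.card_subtype]
    simp only [heval]
  have hsk : 12 * s ≤ 2 ^ k0 := by
    have e1 : 2 ^ k0 = 2 ^ (lam + 1) * 16 := by
      rw [hk0, show lam + 5 = (lam + 1) + 4 by ring, pow_add]
      norm_num
    rw [e1]
    omega
  have hW : Fintype.card (Fin m → Bool) ≤ 2 ^ m := by
    rw [Fintype.card_fun, Fintype.card_bool, Fintype.card_fin]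
  have htu : 1 ≤ t * u := Nat.mul_pos ht hu1
  have hmain := block_bound (p := p) (t := t) (h := h) (τ := τ) (m := m) (d := d) (s := s) (k0 := k0)
    (ℓ := 64 * t * u - 1) (by omega) hsk (W := Fin m → Bool) (Ω := Ω) hW V'
    (fun w ω => by
      have := hsize w ω
      rw [← size_subst π' (V w ω)] at this
      exact this)
    (fun w ω => by
      have := hdepth w ω
      rw [← depth_subst π' (V w ω)] at this
      exact this)
    (fun x hx => by
      obtain ⟨w, hw⟩ := hcomp (form x) ((hform x).mpr hx)
      exact ⟨w, by rw [hcard]; exact hw⟩)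
    (fun x hx w => by
      rw [hcard]
      exact hsound (form x) (fun hun => hx ((hform x).mp hun)) w)
    (by
      have e1 : t * τ = (64 * t * u) * L := by rw [hτ]; ring
      rw [e1, ← hLdef]
      have h1 : 64 * t * u - 1 < 64 * t * u := by
        have : 0 < 64 * t * u := by
          have : 64 * t * u = 64 * (t * u) := by ring
          omega
        omega
      exact Nat.mul_lt_mul_of_pos_right h1 (by omega))
  have hm := numeric (t := t) (u := u) (L := L) (m := m) ht hu1 hL1 hbig hmain
  -- conclusion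
  have hv2 : v ≤ M * (2 * u) := by
    have h1 : v < M * (u + 1) := by
      rw [hu]
      exact Nat.lt_mul_div_succ v hMpos
    calc v ≤ M * (u + 1) := h1.le
      _ ≤ M * (2 * u) := Nat.mul_le_mul_left _ (by omega)
  calc t * v ≤ t * (M * (2 * u)) := Nat.mul_le_mul_left _ hv2
    _ = (2 * (t * u)) * M := by ring
    _ ≤ m * M := by
        apply Nat.mul_le_mul_right
        have : 7 * t * u = 7 * (t * u) := by ring
        omega
    _ ≤ m * (6144 * p * lam) ^ (2 * d + 2) := Nat.mul_le_mul_left _ hM

/-- **Theorem.** Let `p` be a prime. (1) For formulas `F 0 ∨ ... ∨ F (t-1)` over `v` variables,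
each `F j` a three-literal CNF given by its clause indicators, satisfiability has witnesses of `v`
bits verified by circuits of depth two with at most `t + 1` gates. (2) There is a constant `K`
such that, for verifiers of unsatisfiability made of circuits with AND, OR and MOD_p gates (one
circuit of depth at most `d` and size at most `s` for every witness `w` of `m` bits and every
random choice `ω`, with completeness `2/3` and soundness `1/3`), the witness length satisfies
`t * v ≤ m * (K * log₂ (s + v + 2)) ^ (2 d + 2)` as soon as `(K * log₂ (s + v + 2)) ^ (2 d + 2) ≤ v`. -/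
theorem result (p : ℕ) [Fact p.Prime] :
    (∀ t v : ℕ, ∃ V : (Fin v → Bool) → Circuit (Fin t × Clause v),
      (∀ w, Circuit.size (V w) ≤ t + 1 ∧ Circuit.depth (V w) ≤ 2) ∧
      ∀ φ : DisjOfCNF t v, ¬ Unsat φ ↔ ∃ w, Circuit.eval p (V w) φ = true) ∧
    ∃ K : ℕ, ∀ (d t v s m : ℕ) (Ω : Type) [Fintype Ω] [Nonempty Ω]
      (V : (Fin m → Bool) → Ω → Circuit (Fin t × Clause v)),
      (∀ w ω, Circuit.size (V w ω) ≤ s ∧ Circuit.depth (V w ω) ≤ d) →
      (∀ φ : DisjOfCNF t v, Unsat φ → ∃ w, 2 * Fintype.card Ω ≤
        3 * (Finset.univ.filter fun ω => Circuit.eval p (V w ω) φ = true).card) →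
      (∀ φ : DisjOfCNF t v, ¬ Unsat φ → ∀ w,
        3 * (Finset.univ.filter fun ω => Circuit.eval p (V w ω) φ = true).card ≤ Fintype.card Ω) →
      (K * Nat.log 2 (s + v + 2)) ^ (2 * d + 2) ≤ v →
      t * v ≤ m * (K * Nat.log 2 (s + v + 2)) ^ (2 * d + 2) := by
  classical
  constructor
  · intro t v
    choose V hV1 hV2 hV3 using fun α : Fin v → Bool => sat_verifier p t v α
    refine ⟨V, fun w => ⟨hV1 w, hV2 w⟩, ?_⟩
    intro φ
    rw [Unsat, not_not]
    exact exists_congr fun α => (hV3 α φ).symm
  · refine ⟨6144 * p, ?_⟩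
    intro d t v s m Ω _ _ V hsd hcomp hsound hv
    exact lower_bound p d t v s m Ω V (fun w ω => (hsd w ω).1) (fun w ω => (hsd w ω).2) hcomp hsound hv

end Pool.Agent.Lib_helper20.Retired.AC0pWitnessLength
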