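import Pool.Agent.Lib_helper20.RB.Lower
import Pool.Agent.Lib_helper20.RB.Upper
import Pool.Agent.Lib_helper20.RB.Codes

/-!
# Nondeterministic circuits over the full binary basis: exact values

`Circuit N m s` (file `Lib_helper20/RB/Defs.lean`) is a circuit with `N` input bits, `m` witness
bits and `s` gates; a gate applies an arbitrary binary Boolean operation. It accepts `x` if for
some witness the output is true. The number of witness bits is never restricted.
-/

namespace Pool.Agent.Lib_helper20.Retired.FullBasisExact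

open Pool.Agent.Lib_helper20.RB

/-- `x` is a codeword of the binary Hamming code of length `2 ^ k - 1`: for each `t < k`, the
number of positions `i` (counted from `0`) with `x i = 1` for which the binary digit number `t` of
`i + 1` is `1` is even. -/
def IsHamming (k : ℕ) (x : Fin (2 ^ k - 1) → Bool) : Prop :=
  ∀ t < k, Even (Finset.univ.filter
    (fun i : Fin (2 ^ k - 1) => x i = true ∧ (i.val + 1).testBit t = true)).card

/-- The edges of the graph `Γ` are numbered by `e`; the edges selected by `x` form a graph all of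
whose degrees are even. -/
def IsEven {n N : ℕ} {Γ : SimpleGraph (Fin n)} (e : Fin N ≃ Γ.edgeSet) (x : Fin N → Bool) : Prop :=
  ∀ v : Fin n, Even (Finset.univ.filter
    (fun i : Fin N => x i = true ∧ v ∈ (e i : Sym2 (Fin n)))).card

/-! ### Hamming codes -/

/-- the checks of the Hamming code -/
def hamRow (k : ℕ) (t : ℕ) : Finset (Fin (2 ^ k - 1)) :=
  Finset.univ.filter (fun i => (i.val + 1).testBit t = true)

lemma isHamming_iff (k : ℕ) (x : Fin (2 ^ k - 1) → Bool) :
    IsHamming k x ↔ ∀ t < k, ∑ i ∈ hamRow k t, x i = false := by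
  unfold IsHamming
  apply forall_congr'
  intro t
  apply imp_congr_right
  intro _
  rw [sum_eq_false_iff, hamRow, Finset.filter_filter]
  rw [show (Finset.univ.filter (fun i : Fin (2 ^ k - 1) => x i = true ∧
    (i.val + 1).testBit t = true)) = (Finset.univ.filter (fun i : Fin (2 ^ k - 1) =>
    (i.val + 1).testBit t = true ∧ x i = true)) from
      Finset.filter_congr (fun i _ => and_comm)]

lemma isHamming_iff' (k : ℕ) (x : Fin (2 ^ k - 1) → Bool) :
    IsHamming k x ↔ ∀ t : Fin k, ∑ i ∈ hamRow k t.val, x i = false := by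
  rw [isHamming_iff]
  exact ⟨fun h t => h t.val t.2, fun h t ht => h ⟨t, ht⟩⟩

lemma testBit_eq {k a b : ℕ} (ha : a < 2 ^ k) (hb : b < 2 ^ k)
    (h : ∀ t < k, a.testBit t = b.testBit t) : a = b := by
  apply Nat.eq_of_testBit_eq
  intro t
  by_cases ht : t < k
  · exact h t ht
  · have hle : 2 ^ k ≤ 2 ^ t := Nat.pow_le_pow_right (by norm_num) (by omega)
    rw [Nat.testBit_lt_two_pow (lt_of_lt_of_le ha hle),
      Nat.testBit_lt_two_pow (lt_of_lt_of_le hb hle)]

lemma hamming_lower (k : ℕ) {m s : ℕ} (C : Circuit (2 ^ k - 1) m s)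
    (hC : ∀ x, C.Accepts x ↔ IsHamming k x) : 2 ^ (k + 1) ≤ s + k + 3 := by
  classical
  have hlt : ∀ i : Fin (2 ^ k - 1), i.val + 1 < 2 ^ k := fun i => by have := i.2; omega
  have h := lower_bound C k (Finset.univ.filter (fun x => IsHamming k x))
    (fun x => by rw [hC x]; simp)
    (card_code (fun t : Fin k => hamRow k t.val) _ (fun x => by
      rw [← isHamming_iff']; simp))
    (by
      intro x hx x' hx' hne
      rw [Finset.mem_filter] at hx hx'
      refine dist_code (fun t : Fin k => hamRow k t.val) ?_ ?_ x x'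
        ((isHamming_iff' k x).mp hx.2) ((isHamming_iff' k x').mp hx'.2) hne
      · intro i
        by_contra hcon
        push Not at hcon
        have : i.val + 1 = 0 := testBit_eq (hlt i) (by positivity) (fun t ht => by
          have := hcon ⟨t, ht⟩
          simp only [hamRow, Finset.mem_filter, Finset.mem_univ, true_and,
            Bool.not_eq_true] at this
          rw [this, Nat.zero_testBit])
        omega
      · intro i j hij
        by_contra hcon
        push Not at hcon
        apply hij
        have : i.val + 1 = j.val + 1 := testBit_eq (hlt i) (hlt j) (fun t ht => by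
          have := hcon ⟨t, ht⟩
          simp only [hamRow, Finset.mem_filter, Finset.mem_univ, true_and] at this
          cases h1 : (i.val + 1).testBit t <;> cases h2 : (j.val + 1).testBit t <;>
            simp_all)
        exact Fin.ext (by omega))
  have hp : 1 ≤ 2 ^ k := Nat.one_le_two_pow
  have hp2 : 2 ^ (k + 1) = 2 ^ k + 2 ^ k := by rw [pow_succ]; ring
  omega

/-- projection to position `u - 1` -/
def prj (k : ℕ) (u : ℕ) : BF (2 ^ k - 1) := fun x =>
  if h : 1 ≤ u ∧ u < 2 ^ k then x ⟨u - 1, by omega⟩ else false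

lemma prj_sum (k t : ℕ) (x : Fin (2 ^ k - 1) → Bool) :
    ∑ u ∈ Finset.range (2 ^ k), (if u.testBit t then prj k u x else 0) =
      ∑ i ∈ hamRow k t, x i := by
  have hp : 1 ≤ 2 ^ k := Nat.one_le_two_pow
  have hr : Finset.range (2 ^ k) = Finset.range ((2 ^ k - 1) + 1) := by congr 1; omega
  rw [hr, Finset.sum_range_succ', Nat.zero_testBit]
  simp only [Bool.false_eq_true, if_false, add_zero]
  rw [Finset.sum_range, hamRow, Finset.sum_filter]
  apply Finset.sum_congr rfl
  intro i _
  have hi := i.2
  have h1 : 1 ≤ i.val + 1 ∧ i.val + 1 < 2 ^ k := by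
    constructor
    · omega
    · have := i.2
      omega
  have h2 : prj k (i.val + 1) x = x ⟨i.val, by have := i.2; omega⟩ := by
    unfold prj
    rw [dif_pos h1]
    congr 1
  rw [h2]

lemma hamming_upper (k : ℕ) (hk : 2 ≤ k) : ∃ (s : ℕ) (C : Circuit (2 ^ k - 1) 0 s),
    s + k + 3 = 2 ^ (k + 1) ∧ ∀ x, C.Accepts x ↔ IsHamming k x := by
  classical
  obtain ⟨s', B, hs', _, hB, hI⟩ := comp_hamming (N := 2 ^ k - 1) k comp_base (prj k) (by
    intro u h1 h2
    left
    refine ⟨⟨u - 1, by omega⟩, ?_⟩
    funext x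
    unfold prj
    rw [dif_pos ⟨h1, h2⟩])
  obtain ⟨C, hC⟩ := comp_nor hB (fun t x => ∑ i ∈ hamRow k t, x i) (Finset.range k)
    (by simpa using hk) (by
      intro t ht
      have := hI t (Finset.mem_range.mp ht)
      simp only [prj_sum] at this
      exact this)
  refine ⟨_, C, ?_, ?_⟩
  · rw [Finset.card_range]
    have hp2 : 2 ^ (k + 1) = 2 * 2 ^ k := by rw [pow_succ]; ring
    omega
  · intro x
    rw [hC x, isHamming_iff]
    exact ⟨fun h t ht => h t (Finset.mem_range.mpr ht), fun h t ht => h t (Finset.mem_range.mp ht)⟩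

/-! ### Even subgraphs -/

section
variable {n N : ℕ} {Γ : SimpleGraph (Fin n)} (e : Fin N ≃ Γ.edgeSet)

/-- the edges at the vertex `v` -/
def star (v : Fin n) : Finset (Fin N) :=
  Finset.univ.filter (fun i => v ∈ (e i : Sym2 (Fin n)))

lemma isEven_iff (x : Fin N → Bool) :
    IsEven e x ↔ ∀ v, ∑ i ∈ star e v, x i = false := by
  unfold IsEven
  apply forall_congr'
  intro v
  rw [sum_eq_false_iff, star, Finset.filter_filter]
  rw [show (Finset.univ.filter (fun i : Fin N => x i = true ∧ v ∈ (e i : Sym2 (Fin n)))) =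
    (Finset.univ.filter (fun i : Fin N => v ∈ (e i : Sym2 (Fin n)) ∧ x i = true)) from
      Finset.filter_congr (fun i _ => and_comm)]

/-- every edge has two ends -/
lemma ends (i : Fin N) : (Finset.univ.filter (fun v => i ∈ star e v)).card = 2 := by
  obtain ⟨z, hz⟩ : ∃ z : Sym2 (Fin n), z = (e i : Sym2 (Fin n)) := ⟨_, rfl⟩
  have hmem : (e i : Sym2 (Fin n)) ∈ Γ.edgeSet := (e i).2
  rw [← hz] at hmem
  have h1 : (Finset.univ.filter (fun v => i ∈ star e v)) = Finset.univ.filter (fun v => v ∈ z) := by
    apply Finset.filter_congr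
    intro v _
    simp [star, hz]
  rw [h1]
  induction z with
  | _ a b =>
    rw [SimpleGraph.mem_edgeSet] at hmem
    have hab : a ≠ b := hmem.ne
    have : Finset.univ.filter (fun v => v ∈ s(a, b)) = {a, b} := by
      ext v
      simp
    rw [this, Finset.card_pair hab]

lemma sum_star_all (x : Fin N → Bool) : ∑ v, ∑ i ∈ star e v, x i = 0 := by
  have h1 : ∀ v, ∑ i ∈ star e v, x i = ∑ i, if i ∈ star e v then x i else 0 := by
    intro v
    rw [Finset.sum_ite_mem, Finset.univ_inter]
  simp only [h1]
  rw [Finset.sum_comm]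
  apply Finset.sum_eq_zero
  intro i _
  rw [← Finset.sum_filter, Finset.sum_const, ends e i]
  cases x i <;> decide

lemma sum_card_star : ∑ v, (star e v).card = 2 * N := by
  have h1 : ∀ v, (star e v).card = ∑ i, if i ∈ star e v then 1 else 0 := by
    intro v
    rw [Finset.sum_ite_mem, Finset.univ_inter, Finset.card_eq_sum_ones]
  simp only [h1]
  rw [Finset.sum_comm]
  have h2 : ∀ i : Fin N, (∑ v, if i ∈ star e v then 1 else 0) = 2 := by
    intro i
    rw [← Finset.sum_filter, ← Finset.card_eq_sum_ones, ends e i]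
  simp only [h2]
  simp [mul_comm]

/-- one vertex may be left out -/
lemma isEven_iff_erase (v0 : Fin n) (x : Fin N → Bool) :
    IsEven e x ↔ ∀ v ∈ Finset.univ.erase v0, ∑ i ∈ star e v, x i = false := by
  rw [isEven_iff]
  constructor
  · intro h v _
    exact h v
  · intro h v
    by_cases hv : v = v0
    · have hall := sum_star_all e x
      rw [← Finset.add_sum_erase Finset.univ _ (Finset.mem_univ v0)] at hall
      have : ∑ v ∈ Finset.univ.erase v0, ∑ i ∈ star e v, x i = 0 := by
        apply Finset.sum_eq_zero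
        intro u hu
        exact h u hu
      rw [this, add_zero] at hall
      rw [hv]
      exact hall
    · exact h v (Finset.mem_erase.mpr ⟨hv, Finset.mem_univ _⟩)

end

lemma even_lower {n N : ℕ} {Γ : SimpleGraph (Fin n)} (e : Fin N ≃ Γ.edgeSet) (hn : 1 ≤ n)
    {m s : ℕ} (C : Circuit N m s) (hC : ∀ x, C.Accepts x ↔ IsEven e x) : 2 * N ≤ s + n := by
  classical
  obtain ⟨n, rfl⟩ : ∃ n', n = n' + 1 := ⟨n - 1, by omega⟩
  have h := lower_bound C n (Finset.univ.filter (fun x => IsEven e x))
    (fun x => by rw [hC x]; simp)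
    (card_code (fun t : Fin n => star e t.castSucc) _ (fun x => by
      rw [Finset.mem_filter, isEven_iff_erase e (Fin.last n)]
      constructor
      · intro h t
        exact h.2 t.castSucc (Finset.mem_erase.mpr ⟨Fin.castSucc_ne_last t, Finset.mem_univ _⟩)
      · intro h
        refine ⟨Finset.mem_univ _, fun v hv => ?_⟩
        have hv' := (Finset.mem_erase.mp hv).1
        obtain ⟨t, rfl⟩ := Fin.exists_castSucc_eq.mpr hv'
        exact h t))
    (by
      intro x hx x' hx' hne
      rw [Finset.mem_filter] at hx hx'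
      refine dist_code (fun t => star e t) ?_ ?_ x x'
        ((isEven_iff e x).mp hx.2) ((isEven_iff e x').mp hx'.2) hne
      · intro i
        have := ends e i
        have hpos : 0 < (Finset.univ.filter (fun v => i ∈ star e v)).card := by omega
        obtain ⟨v, hv⟩ := Finset.card_pos.mp hpos
        exact ⟨v, (Finset.mem_filter.mp hv).2⟩
      · intro i j hij
        by_contra hcon
        push Not at hcon
        apply hij
        apply e.injective
        apply Subtype.ext
        apply Sym2.ext
        intro v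
        have := hcon v
        simpa [star] using this)
  omega

lemma even_upper {n N : ℕ} {Γ : SimpleGraph (Fin n)} (e : Fin N ≃ Γ.edgeSet) (hn : 3 ≤ n)
    (v0 : Fin n) (hv0 : ∀ u, u ≠ v0 → Γ.Adj v0 u) : ∃ (s : ℕ) (C : Circuit N 0 s),
      s + n = 2 * N ∧ ∀ x, C.Accepts x ↔ IsEven e x := by
  classical
  have hmem : ∀ u, u ≠ v0 → ∃ i, (e i : Sym2 (Fin n)) = s(v0, u) := by
    intro u hu
    refine ⟨e.symm ⟨s(v0, u), (SimpleGraph.mem_edgeSet Γ).mpr (hv0 u hu)⟩, ?_⟩
    simp
  have hne : ∀ u ∈ Finset.univ.erase v0, (star e u).Nonempty := by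
    intro u hu
    obtain ⟨i, hi⟩ := hmem u (Finset.mem_erase.mp hu).1
    exact ⟨i, by simp [star, hi]⟩
  obtain ⟨B, _, hB, hI⟩ := comp_sums (comp_base (N := N)) (fun i x => x i)
    (Finset.univ.erase v0) (fun v => star e v) hne (fun t _ i _ => Or.inl ⟨i, rfl⟩)
  have hcard : (Finset.univ.erase v0).card = n - 1 := by
    rw [Finset.card_erase_of_mem (Finset.mem_univ _)]; simp
  obtain ⟨C, hC⟩ := comp_nor hB (fun t x => ∑ i ∈ star e t, x i) (Finset.univ.erase v0)
    (by omega) hI
  refine ⟨_, C, ?_, ?_⟩
  · -- the star of `v0` has `n - 1` elements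
    have hstar : (star e v0).card = n - 1 := by
      choose f hf using hmem
      rw [← hcard]
      symm
      apply Finset.card_bij (fun u hu => f u (Finset.mem_erase.mp hu).1)
      · intro u hu
        have hu' := (Finset.mem_erase.mp hu).1
        simp [star, hf u hu']
      · intro u hu u' hu' heq
        have h1 := hf u (Finset.mem_erase.mp hu).1
        have h2 := hf u' (Finset.mem_erase.mp hu').1
        rw [heq, h2] at h1
        have hu1 := (Finset.mem_erase.mp hu).1
        have h3 := h1.symm
        rw [Sym2.eq_iff] at h3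
        rcases h3 with ⟨_, h⟩ | ⟨_, h⟩
        · exact h
        · exact absurd h hu1
      · intro i hi
        rw [star, Finset.mem_filter] at hi
        obtain ⟨u, hu⟩ := Sym2.mem_iff_exists.mp hi.2
        have hne0 : u ≠ v0 := by
          intro h
          have hm : (e i : Sym2 (Fin n)) ∈ Γ.edgeSet := (e i).2
          rw [hu, h, SimpleGraph.mem_edgeSet] at hm
          exact hm.ne rfl
        refine ⟨u, Finset.mem_erase.mpr ⟨hne0, Finset.mem_univ _⟩, ?_⟩
        apply e.injective
        apply Subtype.ext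
        rw [hf u hne0, hu]
    have hsum := sum_card_star e
    rw [← Finset.add_sum_erase Finset.univ _ (Finset.mem_univ v0), hstar] at hsum
    have hsub : ∑ t ∈ Finset.univ.erase v0, ((star e t).card - 1) + (n - 1) =
        ∑ t ∈ Finset.univ.erase v0, (star e t).card := by
      rw [← hcard, Finset.card_eq_sum_ones, ← Finset.sum_add_distrib]
      apply Finset.sum_congr rfl
      intro t ht
      have := (hne t ht).card_pos
      omega
    rw [hcard]
    omega
  · intro x
    rw [hC x, isEven_iff_erase e v0]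

/-- **Main theorem.** -/
theorem result :
    -- (1) sets with distance three
    (∀ (N m s r : ℕ) (C : Circuit N m s) (S : Finset (Fin N → Bool)),
      (∀ x, C.Accepts x ↔ x ∈ S) → 2 ^ N ≤ 2 ^ r * S.card →
      (∀ x ∈ S, ∀ x' ∈ S, x ≠ x' → 3 ≤ hammingDist x x') → 2 * N ≤ s + r + 1) ∧
    -- (2) Hamming codes
    (∀ k : ℕ, 2 ≤ k →
      (∀ (m s : ℕ) (C : Circuit (2 ^ k - 1) m s), (∀ x, C.Accepts x ↔ IsHamming k x) →
        2 ^ (k + 1) ≤ s + k + 3) ∧
      ∃ (s : ℕ) (C : Circuit (2 ^ k - 1) 0 s), s + k + 3 = 2 ^ (k + 1) ∧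
        ∀ x, C.Accepts x ↔ IsHamming k x) ∧
    -- (3) even subgraphs
    (∀ (n N : ℕ) (Γ : SimpleGraph (Fin n)) (e : Fin N ≃ Γ.edgeSet), 3 ≤ n →
      (∀ (m s : ℕ) (C : Circuit N m s), (∀ x, C.Accepts x ↔ IsEven e x) → 2 * N ≤ s + n) ∧
      ((∃ v, ∀ u, u ≠ v → Γ.Adj v u) → ∃ (s : ℕ) (C : Circuit N 0 s), s + n = 2 * N ∧
        ∀ x, C.Accepts x ↔ IsEven e x)) := by
  refine ⟨fun N m s r C S h1 h2 h3 => lower_bound C r S h1 h2 h3, ?_, ?_⟩
  · intro k hk
    exact ⟨fun m s C hC => hamming_lower k C hC, hamming_upper k hk⟩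
  · intro n N Γ e hn
    refine ⟨fun m s C hC => even_lower e (by omega) C hC, ?_⟩
    rintro ⟨v, hv⟩
    exact even_upper e hn v hv

end Pool.Agent.Lib_helper20.Retired.FullBasisExact
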