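import Pool.Agent.Lib_helper20.MajMA

/-!
# Length of witnesses and of random strings for MAJORITY

Verifiers are constant-depth circuits with AND, OR and MOD_p gates. In the PP mode (accept if
more than half of the random strings do) MAJORITY of `N` bits needs only `log₂ N` random bits and
depth two. In the MA mode and in the coMA mode (in particular in the NP mode and in the coNP mode)
it is shown to need witnesses of `N / polylog` bits.
-/

namespace Pool.Agent.Results.MP_153864_lc.MajorityWitnessLength

open Pool.Agent.Lib20

/-! ### The PP mode -/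

/-- Gate checking that the random string is the `k`-th one, and that the `k`-th input is one if
`k < N`. -/
def pickGate {N r : ℕ} (b : ℕ → Fin r → Bool) (k : ℕ) : Gate (Fin N ⊕ Fin r) :=
  ⟨Kind.and, ((List.finRange r).map fun j => (!(b k j), Src.input (.inr j))) ++
    (if h : k < N then [(false, Src.input (.inl ⟨k, h⟩))] else [])⟩

lemma pickGate_val {N r : ℕ} (p : ℕ) (b : ℕ → Fin r → Bool) (k : ℕ) (x : Fin N → Bool)
    (y : Fin r → Bool) (vs : List Bool) :
    (pickGate (N := N) b k).val p (Sum.elim x y) vs = true ↔
      y = b k ∧ ∀ h : k < N, x ⟨k, h⟩ = true := by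
  simp only [pickGate, Gate.val, List.all_append, Bool.and_eq_true, List.all_map, List.all_eq_true,
    List.mem_finRange, Function.comp, wireVal, Src.val, Sum.elim_inr, forall_const]
  have h1 : (∀ j : Fin r, (!(b k j) ^^ y j) = true) ↔ y = b k := by
    rw [funext_iff]
    apply forall_congr'
    intro j
    cases b k j <;> cases y j <;> simp
  rw [h1]
  by_cases h : k < N
  · simp [h]
  · simp [h]

lemma vals_pick {N r : ℕ} (p : ℕ) (b : ℕ → Fin r → Bool) (x : Fin N → Bool) (y : Fin r → Bool)
    (l : List ℕ) : Circuit.vals p (Sum.elim x y) (l.map (pickGate b)) =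
      l.map (fun k => (pickGate (N := N) b k).val p (Sum.elim x y) []) := by
  induction l with
  | nil => rfl
  | cons j l ih =>
    simp only [List.map_cons, Circuit.vals]
    rw [ih]
    congr 1
    rw [Bool.eq_iff_iff, pickGate_val, pickGate_val]

lemma foldr_zero (l : List ℕ) (h : ∀ e ∈ l, e = 0) : l.foldr max 0 = 0 := by
  induction l with
  | nil => rfl
  | cons a l ih =>
    rw [List.foldr_cons, h a List.mem_cons_self, ih fun e he => h e (List.mem_cons_of_mem _ he)]
    rfl

lemma depths_pick {N r : ℕ} (b : ℕ → Fin r → Bool) (l : List ℕ) :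
    ∀ e ∈ Circuit.depths (l.map (pickGate b) : List (Gate (Fin N ⊕ Fin r))), e = 1 := by
  induction l with
  | nil => simp [Circuit.depths]
  | cons j l ih =>
    simp only [List.map_cons, Circuit.depths, List.mem_cons]
    rintro e (he | he)
    · rw [he, foldr_zero]
      intro e he
      rw [List.mem_map] at he
      obtain ⟨w, hw, rfl⟩ := he
      simp only [pickGate, List.mem_append, List.mem_map] at hw
      rcases hw with ⟨j, _, rfl⟩ | hw
      · rfl
      · by_cases h : j < N
        · rw [dif_pos h] at hw
          rw [List.mem_singleton.mp hw]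
          rfl
        · rw [dif_neg h] at hw
          simp at hw
    · exact ih e he

lemma pp_verifier (p N : ℕ) :
    ∃ C : Circuit (Fin N ⊕ Fin (Nat.clog 2 N)), Circuit.size C ≤ 2 * N + 2 ∧ Circuit.depth C ≤ 2 ∧
      ∀ x : Fin N → Bool, Majority x ↔ 2 ^ Nat.clog 2 N < 2 * (Finset.univ.filter fun y =>
        Circuit.eval p C (Sum.elim x y) = true).card := by
  classical
  generalize hr' : Nat.clog 2 N = r
  have hr : r = Nat.clog 2 N := hr'.symm
  have hNr : N ≤ 2 ^ r := by
    rw [hr]
    exact Nat.le_pow_clog (by norm_num) N
  have hr2 : 2 ^ r ≤ 2 * N + 1 := by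
    rcases Nat.lt_or_ge 1 N with h1 | h1
    · have h2 : 2 ^ (Nat.clog 2 N - 1) < N := Nat.pow_pred_clog_lt_self (by norm_num) h1
      have h3 : 1 ≤ Nat.clog 2 N := Nat.clog_pos (by norm_num) h1
      have h4 : 2 ^ r = 2 * 2 ^ (Nat.clog 2 N - 1) := by
        rw [hr, ← pow_succ']
        congr 1
        omega
      omega
    · have : r = 0 := by
        rw [hr]
        exact Nat.clog_of_right_le_one h1 2
      rw [this]
      omega
  have hpar : 1 ≤ N → ∃ a, 2 ^ r - N + N = 2 * a ∨ 2 ^ r = N := by
    intro hN
    cases r with
    | zero => exact ⟨0, Or.inr (by omega)⟩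
    | succ r =>
      refine ⟨2 ^ r, Or.inl ?_⟩
      rw [Nat.sub_add_cancel hNr, pow_succ]
      ring
  obtain ⟨c, hc⟩ : ∃ c, c = if N = 0 then 0 else (2 ^ r - N + 1) / 2 := ⟨_, rfl⟩
  have hcr' : N + c ≤ 2 ^ r := by
    rw [hc]
    split_ifs <;> omega
  let e : (Fin r → Bool) ≃ Fin (2 ^ r) := (Fintype.equivFin (Fin r → Bool)).trans (finCongr (by simp))
  let b : ℕ → Fin r → Bool := fun k => if h : k < 2 ^ r then e.symm ⟨k, h⟩ else fun _ => false
  let top : Gate (Fin N ⊕ Fin r) := ⟨Kind.or, (List.range (N + c)).map fun k => (false, Src.gate k)⟩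
  refine ⟨top :: (List.range (N + c)).map (pickGate b), ?_, ?_, ?_⟩
  · simp only [Circuit.size, List.length_cons, List.length_map, List.length_range]
    omega
  · have hds := depths_pick (N := N) b (List.range (N + c))
    set ds := Circuit.depths ((List.range (N + c)).map (pickGate b) : List (Gate (Fin N ⊕ Fin r))) with hdsdef
    have hmax : ∀ l : List ℕ, (∀ e ∈ l, e ≤ 1) → l.foldr max 0 ≤ 1 := by
      intro l hl
      induction l with
      | nil => simp
      | cons a l ih =>
        simp only [List.foldr_cons]
        exact max_le (hl a List.mem_cons_self) (ih fun e he => hl e (List.mem_cons_of_mem _ he))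
    simp only [Circuit.depth, Circuit.depths, List.foldr_cons, ← hdsdef]
    apply max_le
    · apply Nat.succ_le_succ
      apply hmax
      intro e he
      simp only [top, List.map_map, List.mem_map, Function.comp] at he
      obtain ⟨k, _, rfl⟩ := he
      simp only [Src.depth]
      rw [List.getD_eq_getElem?_getD]
      cases hk : ds[k]? with
      | none => simp
      | some e =>
        simp only [Option.getD_some]
        exact (hds e (List.mem_of_getElem? hk)).le
    · exact (hmax ds fun e he => (hds e he).le).trans (by norm_num)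
  · intro x
    have heval : ∀ y, Circuit.eval p (top :: (List.range (N + c)).map (pickGate b)) (Sum.elim x y) = true ↔
        ∃ k, k < N + c ∧ y = b k ∧ ∀ h : k < N, x ⟨k, h⟩ = true := by
      intro y
      simp only [Circuit.eval, Circuit.vals, List.headD_cons]
      rw [vals_pick]
      simp only [top, Gate.val, List.any_map, List.any_eq_true, List.mem_range, Function.comp,
        wireVal, Src.val, Bool.false_xor]
      apply exists_congr
      intro k
      apply and_congr_right
      intro hk
      rw [List.getD_eq_getElem?_getD, List.getElem?_map, List.getElem?_eq_getElem (by simpa using hk)]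
      simp only [Option.map_some, Option.getD_some, List.getElem_range]
      exact pickGate_val p b k x y []
    have hcount : (Finset.univ.filter fun y : Fin r → Bool =>
        Circuit.eval p (top :: (List.range (N + c)).map (pickGate b)) (Sum.elim x y) = true).card =
        (Finset.univ.filter fun i => x i = true).card + c := by
      have h1 := count_pad (N := 2 ^ r) (n := N) (c := c) hcr' (fun ji => x ji.2)
      have h2 : wt (fun i : Fin N => x i) = (Finset.univ.filter fun i => x i = true).card := rfl
      rw [← h2, ← h1]
      apply Finset.card_bij (fun y _ => e y)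
      · intro y hy
        rw [Finset.mem_filter, heval] at hy
        obtain ⟨-, k, hk, hyk, hx⟩ := hy
        have hk2 : k < 2 ^ r := by omega
        have hey : e y = ⟨k, hk2⟩ := by
          rw [hyk]
          simp only [b, dif_pos hk2]
          rw [Equiv.apply_symm_apply]
        rw [Finset.mem_filter]
        refine ⟨Finset.mem_univ _, ?_⟩
        rw [hey]
        by_cases h : k < N
        · simpa [h] using hx h
        · simpa [h] using hk
      · intro y _ y' _ h
        exact e.injective h
      · intro i hi
        rw [Finset.mem_filter] at hi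
        have hi2 := hi.2
        refine ⟨e.symm i, ?_, by rw [Equiv.apply_symm_apply]⟩
        rw [Finset.mem_filter, heval]
        refine ⟨Finset.mem_univ _, i.val, ?_, ?_, ?_⟩
        · by_cases h : i.val < N
          · omega
          · simpa [h] using hi2
        · simp only [b, dif_pos i.isLt]
        · intro h
          simpa [h] using hi2
    rw [hcount, Majority]
    have : 2 * ((Finset.univ.filter fun i => x i = true).card + c) =
        2 * (Finset.univ.filter fun i => x i = true).card + 2 * c := by ring
    rw [this]
    rcases Nat.eq_zero_or_pos N with h0 | hpos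
    · rw [if_pos h0] at hc
      have hw : (Finset.univ.filter fun i => x i = true).card ≤ N :=
        (Finset.card_le_univ _).trans (by simp)
      omega
    · rw [if_neg (by omega)] at hc
      obtain ⟨a, ha⟩ := hpar hpos
      omega

/-- **Theorem.** Let `p` be a prime. (1) In the PP mode, MAJORITY of `N` bits is decided with
`⌈log₂ N⌉` random bits by one circuit of depth at most two with at most `2 N + 2` gates.
(2) There is a constant `K` such that if MAJORITY of `N` bits is decided, in the MA mode or in the
coMA mode, by circuits with AND, OR and MOD_p gates (one circuit of depth at most `d` and size at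
most `s` for every witness `w` of `m` bits and every random choice `ω`, with completeness `2/3` and
soundness `1/3`), and `(K * log₂ (s + N + 2)) ^ (2 d + 2) ≤ N`, then
`N ≤ m * (K * log₂ (s + N + 2)) ^ (2 d + 2)`. -/
theorem result (p : ℕ) [Fact p.Prime] :
    (∀ N : ℕ, ∃ C : Circuit (Fin N ⊕ Fin (Nat.clog 2 N)),
      Circuit.size C ≤ 2 * N + 2 ∧ Circuit.depth C ≤ 2 ∧
      ∀ x : Fin N → Bool, Majority x ↔ 2 ^ Nat.clog 2 N < 2 * (Finset.univ.filter fun y =>
        Circuit.eval p C (Sum.elim x y) = true).card) ∧
    ∃ K : ℕ, ∀ (d N s m : ℕ) (Ω : Type) [Fintype Ω] [Nonempty Ω]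
      (V : (Fin m → Bool) → Ω → Circuit (Fin N)),
      (∀ w ω, Circuit.size (V w ω) ≤ s ∧ Circuit.depth (V w ω) ≤ d) →
      (((∀ x, Majority x → ∃ w, 2 * Fintype.card Ω ≤
          3 * (Finset.univ.filter fun ω => Circuit.eval p (V w ω) x = true).card) ∧
        (∀ x, ¬ Majority x → ∀ w,
          3 * (Finset.univ.filter fun ω => Circuit.eval p (V w ω) x = true).card ≤
            Fintype.card Ω)) ∨
      ((∀ x, ¬ Majority x → ∃ w, 2 * Fintype.card Ω ≤
          3 * (Finset.univ.filter fun ω => Circuit.eval p (V w ω) x = true).card) ∧
        (∀ x, Majority x → ∀ w,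
          3 * (Finset.univ.filter fun ω => Circuit.eval p (V w ω) x = true).card ≤
            Fintype.card Ω))) →
      (K * Nat.log 2 (s + N + 2)) ^ (2 * d + 2) ≤ N →
      N ≤ m * (K * Nat.log 2 (s + N + 2)) ^ (2 * d + 2) := by
  constructor
  · exact pp_verifier p
  · refine ⟨6144 * p, ?_⟩
    intro d N s m Ω _ _ V hsd hmode hv
    rcases hmode with ⟨hc, hs⟩ | ⟨hc, hs⟩
    · exact ma_subfunction_bound d N s m Ω V (fun w ω => (hsd w ω).1) (fun w ω => (hsd w ω).2)
        Majority hc hs (fun h τ h1 h2 h3 => majority_sub N h τ h1 h2 h3) hv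
    · exact ma_subfunction_bound d N s m Ω V (fun w ω => (hsd w ω).1) (fun w ω => (hsd w ω).2)
        (fun x => ¬ Majority x) hc (fun x hx => hs x (not_not.mp hx))
        (fun h τ h1 h2 h3 => minority_sub N h τ h1 h2 h3) hv

end Pool.Agent.Results.MP_153864_lc.MajorityWitnessLength
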