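import Pool.Agent.Lib_helper20.SRO.Fam

/-!
# Majorities of quadratic equations: PP is not NP ∪ coNP for nearly read-once programs

`majQ n` asks whether more than half of `2 tt n + 1` quadratic equations over the field with two
elements hold at a point; the equations and the point are the input. It is in the PP mode of
deterministic oblivious read-once programs, while neither it nor its complement has nondeterministic
branching programs of subexponential size, even if read-once is asked only in the weakest sense: each
accepted input should have one accepting walk that tests few variables more than once.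
-/

namespace Pool.Agent.Results.MP_153864_lc.NearlyReadOnceMajority

open Pool.Agent.Lib_helper20.SRO

/-- **Theorem.** (1) The NP mode and the coNP mode of a family of `Y` read-once programs are PP modes
of families of `2 Y + 1` read-once programs. (2) There is `c > 0` such that for all large `n`, with
`N` the number of variables of `majQ n`: (a) `majQ n` is the PP mode of `2 tt n + 1` read-once
programs with at most `2 n ^ 2` states; (b) if `majQ n` is the NP mode or the coNP mode of `Y`
read-once programs with states `Q`, then `2 ^ (c √N) ≤ Y (N + 1) |Q| + 2`; (c) every nondeterministic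
branching program, in which each accepted input has an accepting walk with at most `c √N` variables
tested more than once, and which computes `majQ n` or its complement, has at least `2 ^ (c √N)`
nodes. -/
theorem result : (∀ (V Q : Type) (Y : ℕ) (A : Fin Y → Obl V Q),
      (∃ B : Fin (2 * Y + 1) → Obl V (Option Q), ∀ v, NPMode A v ↔ PPMode B v) ∧
      (∃ B : Fin (2 * Y + 1) → Obl V (Option Q), ∀ v, CoNPMode A v ↔ PPMode B v)) ∧
    (∃ c : ℝ, 0 < c ∧ ∃ n0 : ℕ, ∀ n ≥ n0,
      (∃ (Q : Type) (_ : Fintype Q) (A : Fin (2 * tt n + 1) → Obl (Var3 n) Q),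
        Fintype.card Q ≤ 2 * n ^ 2 ∧ ∀ v, majQ n v = true ↔ PPMode A v) ∧
      (∀ (Y : ℕ) (Q : Type) [Fintype Q] (A : Fin Y → Obl (Var3 n) Q),
        ((∀ v, majQ n v = true ↔ NPMode A v) ∨ (∀ v, majQ n v = true ↔ CoNPMode A v)) →
        (2 : ℝ) ^ (c * Real.sqrt (Fintype.card (Var3 n))) ≤
          Y * ((Fintype.card (Var3 n) + 1) * Fintype.card Q) + 2) ∧
      (∀ (N : Type) [Fintype N] (G : NBP (Var3 n) N) (r : ℕ),
        (r : ℝ) ≤ c * Real.sqrt (Fintype.card (Var3 n)) → G.FewRereads r →
        (G.Computes (majQ n) ∨ G.Computes (fun v => !majQ n v)) →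
        (2 : ℝ) ^ (c * Real.sqrt (Fintype.card (Var3 n))) ≤ Fintype.card N)) := by
  refine ⟨Pool.Agent.Lib_helper45.SRO.stmtV2, ?_⟩
  obtain ⟨c, hc, n0, h⟩ := hardModes
  refine ⟨c, hc, n0, ?_⟩
  intro n hn
  obtain ⟨h16, h2, h3⟩ := h n hn
  exact ⟨Pool.Agent.Lib_helper45.SRO.stmtV1 n h16, h3, h2⟩

end Pool.Agent.Results.MP_153864_lc.NearlyReadOnceMajority
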