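import Pool.Agent.Lib_helper20.MajForm

/-!
# Nondeterministic and probabilistic verifiers reading every bit once

Verifiers are constant-depth formulas over the input bits and over witness (or random) bits. The
NP mode accepts if some witness makes the formula true, the coNP mode if all do, and the PP mode
if more than half of the settings of the random bits do. If every witness or random bit is read
once, the PP mode still contains the NP mode and the coNP mode and is closed under complement,
and the inclusion is proper: MAJORITY separates them, even for verifiers with MOD_p gates.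
-/

namespace Pool.Agent.Lib_helper20.Retired.ReadOnceMajority

open Pool.Agent.Lib20

/-- **Theorem** (in the read-once model, the union of NP and coNP is properly contained in PP).
(1) The NP mode and the coNP mode of a formula reading every extra bit at most once are the PP
mode of such a formula, and the PP mode is closed under complement.
(2) MAJORITY of `N` bits is the PP mode of a formula of depth at most `2` and of size
`O(N log N)` which reads every random bit at most once.
(3) For every prime `p` there is `K` such that: if a formula `φ` with AND, OR and MOD_p gates of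
depth at most `d` and size at most `s`, in which all witness bits outside a set `R` of at most `m`
bits are read at most once (the number of witness bits being unlimited), computes MAJORITY of `N`
bits in the NP mode or in the coNP mode, and `(K log₂ (s + N + 2)) ^ (2 d + 2) ≤ N`, then
`N ≤ m * (K log₂ (s + N + 2)) ^ (2 d + 2)`. -/
theorem result :
    (∀ (ι : Type) (r : ℕ) (φ : Form ι (Fin r)), (∀ k, Form.reads k φ ≤ 1) →
      (∃ (r' : ℕ) (ψ : Form ι (Fin r')), (∀ k, Form.reads k ψ ≤ 1) ∧
        Form.depth ψ ≤ Form.depth φ + 1 ∧ Form.size ψ ≤ Form.size φ + 2 ∧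
        ∀ (p : ℕ) (x : ι → Bool), (∃ y, Form.eval p x y φ = true) ↔ Form.MajAcc p x ψ) ∧
      (∃ (r' : ℕ) (ψ : Form ι (Fin r')), (∀ k, Form.reads k ψ ≤ 1) ∧
        Form.depth ψ ≤ Form.depth φ + 2 ∧ Form.size ψ ≤ Form.size φ + r + 6 ∧
        ∀ (p : ℕ) (x : ι → Bool), (∀ y, Form.eval p x y φ = true) ↔ Form.MajAcc p x ψ) ∧
      (∃ (r' : ℕ) (ψ : Form ι (Fin r')), (∀ k, Form.reads k ψ ≤ 1) ∧
        Form.depth ψ ≤ max (Form.depth φ) 1 + 1 ∧ Form.size ψ ≤ Form.size φ + r + 3 ∧
        ∀ (p : ℕ) (x : ι → Bool), ¬ Form.MajAcc p x φ ↔ Form.MajAcc p x ψ)) ∧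
    (∀ N : ℕ, ∃ (r : ℕ) (ψ : Form (Fin N) (Fin r)), (∀ k, Form.reads k ψ ≤ 1) ∧
      Form.depth ψ ≤ 2 ∧ Form.size ψ ≤ (3 * N + 2) * (Nat.log 2 N + 3) + 1 ∧
      ∀ (p : ℕ) (x : Fin N → Bool), Majority x ↔ Form.MajAcc p x ψ) ∧
    ∀ (p : ℕ) [Fact p.Prime], ∃ K : ℕ, ∀ (d N s m : ℕ) (κ : Type) [DecidableEq κ]
      (φ : Form (Fin N) κ) (R : Finset κ),
      R.card ≤ m → (∀ k, k ∉ R → Form.reads k φ ≤ 1) → Form.depth φ ≤ d → Form.size φ ≤ s →
      ((∀ x, Majority x ↔ ∃ y, Form.eval p x y φ = true) ∨
        (∀ x, Majority x ↔ ∀ y, Form.eval p x y φ = true)) →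
      (K * Nat.log 2 (s + N + 2)) ^ (2 * d + 2) ≤ N →
      N ≤ m * (K * Nat.log 2 (s + N + 2)) ^ (2 * d + 2) := by
  refine ⟨?_, ?_, ?_⟩
  · intro ι r φ hφ
    refine ⟨?_, ?_, ?_⟩
    · obtain ⟨r', ψ, -, h1, h2, h3, h4⟩ := Form.exists_to_maj 1 le_rfl φ hφ
      exact ⟨r', ψ, h1, h2, h3, fun p x => (h4 p x).symm⟩
    · obtain ⟨r', ψ, -, h1, h2, h3, h4⟩ := Form.forall_to_maj 1 le_rfl φ hφ
      exact ⟨r', ψ, h1, h2, h3, fun p x => (h4 p x).symm⟩
    · obtain ⟨r', ψ, -, h1, h2, h3, h4⟩ := Form.compl_maj 1 le_rfl φ hφ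
      exact ⟨r', ψ, h1, h2, h3, fun p x => (h4 p x).symm⟩
  · intro N
    obtain ⟨r, ψ, -, h1, h2, h3, h4⟩ := Form.majority_form N
    exact ⟨r, ψ, h1, h2, h3, fun p x => (h4 p x).symm⟩
  · intro p _
    refine ⟨12288 * p ^ 3, ?_⟩
    intro d N s m κ _ φ R hR hread hdepth hsize hφ hv
    rcases hφ with hφ | hφ
    · exact subfunction_bound (p := p) d N s m κ φ R hR hread hdepth hsize Majority hφ
        (fun h τ h1 h2 h3 => majority_sub N h τ h1 h2 h3) hv
    · apply subfunction_bound (p := p) d N s m κ (Form.neg φ) R hR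
        (fun k hk => by simpa [Form.reads] using hread k hk)
        (by simpa [Form.depth] using hdepth) (by simpa [Form.size] using hsize)
        (fun x => ¬ Majority x) (fun x => ?_)
        (fun h τ h1 h2 h3 => minority_sub N h τ h1 h2 h3) hv
      rw [hφ]
      simp [Form.eval]

end Pool.Agent.Lib_helper20.Retired.ReadOnceMajority
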