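import Pool.Agent.Lib_helper20.FormBlock

/-!
# Reading every witness bit once

Verifiers are constant-depth formulas over the input bits and the witness bits. When all witness
bits but `m` are read at most once, formulas with AND, OR and MOD_p gates cannot verify
unsatisfiability, unless `m` is nearly linear in the number of variables or the formula is
exponentially large. (When every witness bit may be read twice, depth three and quadratic size
are enough for everything that nondeterministic circuits can do: see `nand_read_twice` in
`Pool.Agent.Lib_helper20.ReadTwice`.)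
-/

namespace Pool.Agent.Lib_helper20.Retired.ReadOnceWitness

open Pool.Agent.Lib20

/-- **Theorem.** For every prime `p` there is `K` such that: if a formula `φ` with AND, OR and
MOD_p gates of depth at most `d` and size at most `s`, in which all witness bits outside a set `R`
of at most `m` bits are read at most once (the number of witness bits being unlimited), verifies
unsatisfiability of the formulas `F 0 ∨ ... ∨ F (t-1)` over `v` variables, each `F j` a
three-literal CNF, and `(K log₂ (s + v + 2)) ^ (2 d + 2) ≤ v`, then
`t * v ≤ m * (K log₂ (s + v + 2)) ^ (2 d + 2)`. -/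
theorem result (p : ℕ) [Fact p.Prime] :
    ∃ K : ℕ, ∀ (d t v s m : ℕ) (κ : Type) [DecidableEq κ]
      (φ : Form (Fin t × Clause v) κ) (R : Finset κ),
      R.card ≤ m → (∀ k, k ∉ R → Form.reads k φ ≤ 1) → Form.depth φ ≤ d → Form.size φ ≤ s →
      (∀ ψ : DisjOfCNF t v, Unsat ψ ↔ ∃ y, Form.eval p ψ y φ = true) →
      (K * Nat.log 2 (s + v + 2)) ^ (2 * d + 2) ≤ v →
      t * v ≤ m * (K * Nat.log 2 (s + v + 2)) ^ (2 * d + 2) := by
  refine ⟨12288 * p ^ 3, ?_⟩
  intro d t v s m κ _ φ R hR hread hdepth hsize hφ hv
  exact read_once_bound d t v s m κ φ R hR hread hdepth hsize hφ hv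

end Pool.Agent.Lib_helper20.Retired.ReadOnceWitness
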