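import Pool.Agent.Lib_helper20.Tseitin

/-!
# Two reads per random bit suffice for PP

Verifiers are constant-depth formulas over the input bits and over random bits, accepting if more
than half of the settings of the random bits make the formula true (PP mode). If every random
bit may be read twice, depth four and cubic size are enough for
everything that circuits with random bits can do in the PP mode.
-/

namespace Pool.Agent.Lib_helper20.Retired.TwoReadsSuffice

open Pool.Agent.Lib20

/-- **Theorem.** For every circuit `C` of two-input NAND gates with `q` random bits there is a
formula of depth at most `4` and of size at most `400 (|C| + q + 1)^3` (one formula for all moduli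
`p`) in which every random bit is read at most twice and which accepts by majority vote over its
random bits exactly the inputs which `C` accepts by majority vote over its random bits. -/
theorem result (ι : Type) (q : ℕ) (C : NandCircuit (ι ⊕ Fin q)) :
    ∃ (r : ℕ) (ψ : Form ι (Fin r)), (∀ k, Form.reads k ψ ≤ 2) ∧ Form.depth ψ ≤ 4 ∧
      Form.size ψ ≤ 400 * (List.length C + q + 1) ^ 3 ∧
      ∀ (p : ℕ) (x : ι → Bool),
        2 ^ q < 2 * (Finset.univ.filter fun y : Fin q → Bool =>
            NandCircuit.eval C (Sum.elim x y) = true).card ↔
          Form.MajAcc p x ψ := by
  obtain ⟨r, ψ, h1, h2, h3, h4⟩ := nand_maj_read_twice q C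
  exact ⟨r, ψ, h1, h2, h3, fun p x => (h4 p x).symm⟩

end Pool.Agent.Lib_helper20.Retired.TwoReadsSuffice
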